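import Pool.Agent.H306R2.RG.Defs
import Pool.Agent.H306R2.RG.StubsA
import Pool.Agent.H200R2.RZ_Z1
import Pool.Agent.H423R2.RZL.L1

set_option autoImplicit false

/-! Task PH4 of project RG: the squares on the dual side, families `F4`. -/

namespace Pool.Agent.H207R4.RGPH4

open Finset Filter Topology MeasureTheory Pool.Agent.H306R2.RZ Pool.Agent.H306R2.RG
open Pool.Agent.H306R2.RG.StubsA (Fme bb4)

noncomputable section

theorem Gk_bound (k : ℤ) (n : ℕ) : |Gk k n| ≤ 2 * n := by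
  unfold Gk
  refine (Finset.abs_sum_le_sum_abs _ _).trans ?_
  have h : ∀ r ∈ range n, |js (r : ℤ) n * cas (2 * Real.pi * (k : ℝ) * (r : ℝ) / (n : ℝ))| ≤ 2 := by
    intro r _
    rw [abs_mul]
    have h1 : |js (r : ℤ) n| ≤ 1 := by
      unfold js
      rcases jacobiSym.trichotomy (r : ℤ) n with h | h | h <;> rw [h] <;> simp
    have h2 : |cas (2 * Real.pi * (k : ℝ) * (r : ℝ) / (n : ℝ))| ≤ 2 := by
      unfold cas
      refine (abs_add_le _ _).trans ?_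
      have := Real.abs_cos_le_one (2 * Real.pi * (k : ℝ) * (r : ℝ) / (n : ℝ))
      have := Real.abs_sin_le_one (2 * Real.pi * (k : ℝ) * (r : ℝ) / (n : ℝ))
      linarith
    nlinarith [abs_nonneg (js (r : ℤ) n),
      abs_nonneg (cas (2 * Real.pi * (k : ℝ) * (r : ℝ) / (n : ℝ)))]
  refine (Finset.sum_le_sum h).trans ?_
  rw [Finset.sum_const, Finset.card_range, nsmul_eq_mul]
  linarith

theorem xi_cpow (m : ℝ) (hm : 0 < m) (X : ℝ) (hX : 0 < X) (n : ℕ) (hn : 0 < n) (j : ℕ) (s : ℂ) :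
    (((((j : ℝ) + 1) ^ 2 * X / (m * n) : ℝ)) : ℂ) ^ (-s) =
      ((j : ℂ) + 1) ^ (-(2 * s)) * ((X : ℂ) ^ (-s) * ((m : ℂ) ^ s * (n : ℂ) ^ s)) := by
  have hj : (0 : ℝ) < (j : ℝ) + 1 := by positivity
  have hn' : (0 : ℝ) < (n : ℝ) := by exact_mod_cast hn
  have e1 : ((j : ℝ) + 1) ^ 2 * X / (m * n) =
      (((j : ℝ) + 1) * ((j : ℝ) + 1)) * (X * (m⁻¹ * (n : ℝ)⁻¹)) := by
    field_simp
  rw [e1]
  rw [Complex.ofReal_mul, Complex.mul_cpow_ofReal_nonneg (by positivity) (by positivity)]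
  rw [Complex.ofReal_mul, Complex.mul_cpow_ofReal_nonneg (by positivity) (by positivity)]
  rw [Complex.ofReal_mul, Complex.mul_cpow_ofReal_nonneg (by positivity) (by positivity)]
  rw [Complex.ofReal_mul, Complex.mul_cpow_ofReal_nonneg (by positivity) (by positivity)]
  have e2 : ((j : ℂ) + 1) ^ (-(2 * s)) =
      (((j : ℝ) + 1 : ℝ) : ℂ) ^ (-s) * (((j : ℝ) + 1 : ℝ) : ℂ) ^ (-s) := by
    rw [← Complex.cpow_add _ _ (by exact_mod_cast hj.ne')]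
    push_cast
    congr 1
    ring
  rw [e2]
  have e3 : ∀ x : ℝ, 0 < x → ((x⁻¹ : ℝ) : ℂ) ^ (-s) = (x : ℂ) ^ s := by
    intro x hx
    rw [Complex.ofReal_inv, Complex.inv_cpow, ← Complex.cpow_neg, neg_neg]
    rw [Complex.arg_ofReal_of_nonneg hx.le]
    exact Real.pi_pos.ne
  rw [e3 m hm, e3 n hn']
  simp only [Complex.ofReal_natCast]

/-- the general computation -/
theorem PHgen (ε : ℤ) (F : ℝ → ℝ) (hP : HP (Fme ε F) (Ft F 0))
    (hI : ∀ ξ : ℝ, 0 < ξ → ∀ σ0 : ℝ, 0 < σ0 → σ0 ≤ 1 →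
      (Ft F ((ε : ℝ) * ξ) : ℂ) = (1 / (2 * Real.pi) : ℂ) *
        ∫ t : ℝ, Fme ε F ((σ0 : ℂ) + t * Complex.I) * (ξ : ℂ) ^ (-((σ0 : ℂ) + t * Complex.I)))
    (m : ℝ) (hm : 0 < m) (c : ℝ) (b : ℕ → ℝ) (hb : ∀ j, |b j| ≤ 1) (W : ℂ → ℂ) (X : ℝ)
    (hX : 0 < X) (n : ℕ) (hnpos : 0 < n)
    (hW : ∀ s : ℂ, 1 / 2 < s.re →
      HasSum (fun j : ℕ => (b j : ℂ) * (Gk (((j : ℤ) + 1) ^ 2) n : ℂ) *
        ((j : ℂ) + 1) ^ (-(2 * s))) (W s * (n : ℂ) ^ (1 - s) * ks s n))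
    (σ0 : ℝ) (h0 : 1 / 2 < σ0) (h1 : σ0 ≤ 1) :
    ((c * ((∑' j : ℕ, b j * Gk (((j : ℤ) + 1) ^ 2) n *
      Ft F ((ε : ℝ) / m * ((j : ℝ) + 1) ^ 2 * X / n)) / n) : ℝ) : ℂ) =
      Dsg (fun s => (c : ℂ) * ((m : ℂ) ^ s * W s * Fme ε F s)) X n σ0 := by
  have hn' : (0 : ℝ) < (n : ℝ) := by exact_mod_cast hnpos
  have hnc : (n : ℂ) ≠ 0 := by exact_mod_cast hnpos.ne'
  have hσ : 0 < σ0 := by linarith
  have hdiff := hP.diff
  obtain ⟨C, hC⟩ := hP.bd 1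
  -- abbreviations
  set S : ℝ → ℂ := fun t => (σ0 : ℂ) + t * Complex.I with hS
  have hSre : ∀ t, (S t).re = σ0 := by intro t; simp [hS]
  have hSim : ∀ t, (S t).im = t := by intro t; simp [hS]
  have hScont : Continuous S := by
    simp only [hS]
    fun_prop
  have hFcont : Continuous (fun t => Fme ε F (S t)) := by
    have h2 : ContinuousOn (Fme ε F) {s | 0 < s.re} := hdiff.continuousOn
    refine h2.comp_continuous hScont ?_
    intro t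
    simp only [Set.mem_ofPred_eq, hSre]
    exact hσ
  have hFb : ∀ t : ℝ, ‖Fme ε F (S t)‖ ≤ (|C| / σ0) * (1 + t ^ 2)⁻¹ := by
    intro t
    have h2 := hC (S t) (by rw [hSre]; exact hσ) (by rw [hSre]; exact h1)
    refine h2.trans ?_
    have h3 : σ0 ≤ ‖S t‖ := by
      have := Complex.abs_re_le_norm (S t)
      rw [hSre, abs_of_pos hσ] at this
      exact this
    have h4 : t ^ 2 ≤ ‖S t‖ ^ 2 := by
      have := Complex.abs_im_le_norm (S t)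
      rw [hSim] at this
      rw [← sq_abs t]
      exact pow_le_pow_left₀ (abs_nonneg _) this 2
    have h5 : σ0 * (1 + t ^ 2) ≤ ‖S t‖ * (1 + ‖S t‖) ^ 1 := by
      have h6 : σ0 * t ^ 2 ≤ t ^ 2 := by nlinarith [sq_nonneg t]
      nlinarith
    have h7 : 0 < σ0 * (1 + t ^ 2) := by positivity
    calc C / (‖S t‖ * (1 + ‖S t‖) ^ 1) ≤ |C| / (‖S t‖ * (1 + ‖S t‖) ^ 1) := by
          apply div_le_div_of_nonneg_right (le_abs_self C)
          exact (h7.trans_le h5).le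
      _ ≤ |C| / (σ0 * (1 + t ^ 2)) := by
          apply div_le_div_of_nonneg_left (abs_nonneg C) h7 h5
      _ = (|C| / σ0) * (1 + t ^ 2)⁻¹ := by
          field_simp
  have hFint : Integrable (fun t => Fme ε F (S t)) := by
    refine Integrable.mono' (integrable_inv_one_add_sq.const_mul (|C| / σ0))
      hFcont.aestronglyMeasurable ?_
    exact Eventually.of_forall hFb
  -- the terms
  set ξ : ℕ → ℝ := fun j => ((j : ℝ) + 1) ^ 2 * X / (m * n) with hξ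
  have hξpos : ∀ j, 0 < ξ j := by intro j; simp only [hξ]; positivity
  set g : ℕ → ℝ := fun j => b j * Gk (((j : ℤ) + 1) ^ 2) n with hg
  have hgb : ∀ j, |g j| ≤ 2 * n := by
    intro j
    simp only [hg, abs_mul]
    calc |b j| * |Gk (((j : ℤ) + 1) ^ 2) n| ≤ 1 * (2 * n) :=
          mul_le_mul (hb j) (Gk_bound _ _) (abs_nonneg _) zero_le_one
      _ = 2 * n := one_mul _
  set T : ℕ → ℝ → ℂ := fun j t => (g j : ℂ) * (Fme ε F (S t) * (ξ j : ℂ) ^ (-(S t))) with hT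
  have hTnorm : ∀ j t, ‖T j t‖ = |g j| * ξ j ^ (-σ0) * ‖Fme ε F (S t)‖ := by
    intro j t
    simp only [hT, norm_mul, Complex.norm_real, Real.norm_eq_abs]
    rw [Complex.norm_cpow_eq_rpow_re_of_pos (hξpos j)]
    rw [Complex.neg_re, hSre]
    ring
  have hTint : ∀ j, Integrable (T j) := by
    intro j
    have hcont : Continuous (T j) := by
      simp only [hT]
      refine continuous_const.mul (hFcont.mul ?_)
      have : (ξ j : ℂ) ≠ 0 := by exact_mod_cast (hξpos j).ne'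
      exact (hScont.neg).const_cpow (Or.inl this)
    refine Integrable.mono' (hFint.norm.const_mul (|g j| * ξ j ^ (-σ0))) hcont.aestronglyMeasurable ?_
    exact Eventually.of_forall (fun t => (hTnorm j t).le)
  have hsum : Summable (fun j => ∫ t, ‖T j t‖) := by
    have e : ∀ j, ∫ t, ‖T j t‖ = |g j| * ξ j ^ (-σ0) * ∫ t, ‖Fme ε F (S t)‖ := by
      intro j
      rw [← integral_const_mul]
      exact integral_congr_ae (Eventually.of_forall (fun t => hTnorm j t))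
    simp only [e]
    refine Summable.mul_right _ ?_
    have hs0 : Summable (fun j : ℕ => ((j : ℝ) + 1) ^ (-(2 * σ0))) := by
      have := (Real.summable_nat_rpow (p := -(2 * σ0))).2 (by linarith)
      have h2 := (summable_nat_add_iff 1).2 this
      refine h2.congr ?_
      intro j
      push_cast
      rfl
    refine Summable.of_nonneg_of_le (fun j => by positivity) (fun j => ?_)
      (hs0.mul_left ((2 * n) * (X / (m * n)) ^ (-σ0)))
    have e2 : ξ j ^ (-σ0) = ((j : ℝ) + 1) ^ (-(2 * σ0)) * (X / (m * n)) ^ (-σ0) := by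
      have e3 : ξ j = ((j : ℝ) + 1) ^ (2 : ℝ) * (X / (m * n)) := by
        simp only [hξ]
        rw [Real.rpow_two]
        ring
      rw [e3, Real.mul_rpow (by positivity) (by positivity), ← Real.rpow_mul (by positivity)]
      congr 2
      ring
    rw [e2]
    have h8 : 0 ≤ ((j : ℝ) + 1) ^ (-(2 * σ0)) * (X / (m * n)) ^ (-σ0) := by positivity
    calc |g j| * (((j : ℝ) + 1) ^ (-(2 * σ0)) * (X / (m * n)) ^ (-σ0))
        ≤ (2 * n) * (((j : ℝ) + 1) ^ (-(2 * σ0)) * (X / (m * n)) ^ (-σ0)) :=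
          mul_le_mul_of_nonneg_right (hgb j) h8
      _ = 2 * n * (X / (m * n)) ^ (-σ0) * ((j : ℝ) + 1) ^ (-(2 * σ0)) := by ring
  have key := hasSum_integral_of_summable_integral_norm hTint hsum
  -- pointwise sum
  have hpt : ∀ t, (∑' j, T j t) = (n : ℂ) * (((m : ℂ) ^ (S t) * W (S t) * Fme ε F (S t)) *
        (X : ℂ) ^ (-(S t)) * ks (S t) n) := by
    intro t
    have h5 := hW (S t) (by rw [hSre]; exact h0)
    have h6 := h5.mul_left (Fme ε F (S t) * ((X : ℂ) ^ (-(S t)) * ((m : ℂ) ^ (S t) *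
      (n : ℂ) ^ (S t))))
    have h7 : HasSum (fun j => T j t) ((Fme ε F (S t) * ((X : ℂ) ^ (-(S t)) *
        ((m : ℂ) ^ (S t) * (n : ℂ) ^ (S t)))) *
        (W (S t) * (n : ℂ) ^ (1 - S t) * ks (S t) n)) := by
      refine h6.congr_fun ?_ |> id
      intro j
      simp only [hT, hg, hξ]
      rw [xi_cpow m hm X hX n hnpos j (S t)]
      push_cast
      ring
    rw [h7.tsum_eq]
    have e4 : (n : ℂ) ^ (S t) * (n : ℂ) ^ (1 - S t) = n := by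
      rw [← Complex.cpow_add _ _ hnc]
      simp
    calc (Fme ε F (S t) * ((X : ℂ) ^ (-(S t)) * ((m : ℂ) ^ (S t) * (n : ℂ) ^ (S t)))) *
        (W (S t) * (n : ℂ) ^ (1 - S t) * ks (S t) n)
        = ((n : ℂ) ^ (S t) * (n : ℂ) ^ (1 - S t)) *
          (((m : ℂ) ^ (S t) * W (S t) * Fme ε F (S t)) * (X : ℂ) ^ (-(S t)) * ks (S t) n) := by
          ring
      _ = _ := by rw [e4]
  have hleft : ((c * ((∑' j : ℕ, b j * Gk (((j : ℤ) + 1) ^ 2) n *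
      Ft F ((ε : ℝ) / m * ((j : ℝ) + 1) ^ 2 * X / n)) / n) : ℝ) : ℂ) =
      (c : ℂ) * ((∑' j, (g j : ℂ) * (Ft F ((ε : ℝ) * ξ j) : ℂ)) / n) := by
    push_cast
    congr 2
    refine tsum_congr ?_
    intro j
    have e5 : (ε : ℝ) / m * ((j : ℝ) + 1) ^ 2 * X / n = (ε : ℝ) * ξ j := by
      simp only [hξ]
      field_simp
    rw [e5]
    simp only [hg]
    push_cast
    rfl
  rw [hleft]
  have hterm : ∀ j, (g j : ℂ) * (Ft F ((ε : ℝ) * ξ j) : ℂ) =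
      (1 / (2 * Real.pi) : ℂ) * ∫ t, T j t := by
    intro j
    rw [hI (ξ j) (hξpos j) σ0 hσ h1]
    simp only [hT]
    rw [integral_const_mul]
    ring
  simp only [hterm]
  rw [tsum_mul_left, key.tsum_eq]
  simp only [hpt]
  unfold Dsg
  have e6 : (fun t : ℝ => (c : ℂ) * ((m : ℂ) ^ ((σ0 : ℂ) + t * Complex.I) *
      W ((σ0 : ℂ) + t * Complex.I) * Fme ε F ((σ0 : ℂ) + t * Complex.I)) *
      (X : ℂ) ^ (-((σ0 : ℂ) + t * Complex.I)) * ks ((σ0 : ℂ) + t * Complex.I) n) =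
      fun t : ℝ => (c : ℂ) * (((m : ℂ) ^ (S t) * W (S t) * Fme ε F (S t)) *
        (X : ℂ) ^ (-(S t)) * ks (S t) n) := by
    funext t
    simp only [hS]
    ring
  rw [e6, integral_const_mul, integral_const_mul]
  field_simp

theorem bb4_sq (j : ℕ) : bb4 (((j : ℤ) + 1) ^ 2) = (-1 : ℝ) ^ (j + 1) := by
  unfold bb4
  rcases Nat.even_or_odd (j + 1) with h | h
  · obtain ⟨k, hk⟩ := h
    have e : (((j : ℤ) + 1) ^ 2) % 4 = 0 := by
      have : ((j : ℤ) + 1) = 2 * k := by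
        have : ((j + 1 : ℕ) : ℤ) = ((k + k : ℕ) : ℤ) := by rw [hk]
        push_cast at this
        linarith
      rw [this]
      have e2 : (2 * (k : ℤ)) ^ 2 = 4 * (k ^ 2) := by ring
      rw [e2]
      simp
    rw [if_pos e, Even.neg_one_pow ⟨k, hk⟩]
  · obtain ⟨k, hk⟩ := h
    have e : (((j : ℤ) + 1) ^ 2) % 4 = 1 := by
      have : ((j : ℤ) + 1) = 2 * k + 1 := by
        have : ((j + 1 : ℕ) : ℤ) = ((2 * k + 1 : ℕ) : ℤ) := by rw [hk]
        push_cast at this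
        linarith
      rw [this]
      have e2 : (2 * (k : ℤ) + 1) ^ 2 = 1 + 4 * (k ^ 2 + k) := by ring
      rw [e2]
      omega
    rw [if_neg (by omega), if_neg (by omega), Odd.neg_one_pow ⟨k, hk⟩]

/-- the properties of `H` -/
theorem HP4 (ε : ℤ) (F : ℝ → ℝ) (hP : HP (Fme ε F) (Ft F 0)) :
    HP (fun s => ((1 / 4 : ℝ) : ℂ) * (((4 : ℝ) : ℂ) ^ s * Zf s * Fme ε F s))
      (-(1 / 8 * Ft F 0)) := by
  obtain ⟨hZd, ⟨C2, hC2⟩, hZl, -⟩ := Pool.Agent.H200R2.RZ.Z1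
  have h4 : ((4 : ℝ) : ℂ) ≠ 0 := by norm_num
  refine ⟨?_, ?_, ?_⟩
  · refine DifferentiableOn.const_mul ?_ _
    refine DifferentiableOn.mul (DifferentiableOn.mul ?_ hZd.differentiableOn) hP.diff
    exact (differentiable_id.const_cpow (Or.inl h4)).differentiableOn
  · intro A
    obtain ⟨C1, hC1⟩ := hP.bd (A + 2)
    refine ⟨|C1| * |C2|, fun s hs0 hs1 => ?_⟩
    have b1 := hC1 s hs0 hs1
    have b2 := hC2 s hs0.le hs1
    have hsn : 0 < ‖s‖ := norm_pos_iff.2 (by rintro rfl; simp at hs0)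
    have b3 : ‖((4 : ℝ) : ℂ) ^ s‖ ≤ 4 := by
      rw [Complex.norm_cpow_eq_rpow_re_of_pos (by norm_num)]
      calc (4 : ℝ) ^ s.re ≤ (4 : ℝ) ^ (1 : ℝ) :=
            Real.rpow_le_rpow_of_exponent_le (by norm_num) hs1
        _ = 4 := by norm_num
    have b1' : ‖Fme ε F s‖ ≤ |C1| / (‖s‖ * (1 + ‖s‖) ^ (A + 2)) :=
      b1.trans (div_le_div_of_nonneg_right (le_abs_self C1) (by positivity))
    have b2' : ‖Zf s‖ ≤ |C2| * (1 + ‖s‖) ^ 2 :=
      b2.trans (mul_le_mul_of_nonneg_right (le_abs_self C2) (by positivity))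
    have b4 : ‖((1 / 4 : ℝ) : ℂ)‖ = 1 / 4 := by
      rw [Complex.norm_real]; norm_num
    simp only [norm_mul, b4]
    calc 1 / 4 * (‖((4 : ℝ) : ℂ) ^ s‖ * ‖Zf s‖ * ‖Fme ε F s‖)
        ≤ 1 / 4 * (4 * (|C2| * (1 + ‖s‖) ^ 2) * (|C1| / (‖s‖ * (1 + ‖s‖) ^ (A + 2)))) := by
          gcongr
      _ = |C1| * |C2| / (‖s‖ * (1 + ‖s‖) ^ A) := by
          have : (1 + ‖s‖) ^ (A + 2) = (1 + ‖s‖) ^ A * (1 + ‖s‖) ^ 2 := pow_add _ _ _
          rw [this]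
          have h9 : (1 + ‖s‖) ≠ 0 := by positivity
          field_simp
  · intro σ hσ
    have l1 := hP.lim σ hσ
    have l2 := hZl σ
    have l0 : Tendsto (fun L : ℝ => σ / (L : ℂ)) atTop (𝓝 0) := by
      have h5 : Tendsto (fun L : ℝ => ((L⁻¹ : ℝ) : ℂ)) atTop (𝓝 ((0 : ℝ) : ℂ)) :=
        (Complex.continuous_ofReal.tendsto 0).comp tendsto_inv_atTop_zero
      have h6 := h5.const_mul σ
      simp only [Complex.ofReal_zero, mul_zero] at h6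
      refine h6.congr fun L => ?_
      rw [Complex.ofReal_inv, div_eq_mul_inv]
    have l3 : Tendsto (fun L : ℝ => ((4 : ℝ) : ℂ) ^ (σ / (L : ℂ))) atTop (𝓝 1) := by
      have hc : Continuous (fun s : ℂ => ((4 : ℝ) : ℂ) ^ s) :=
        continuous_id.const_cpow (Or.inl h4)
      have h7 := (hc.tendsto 0).comp l0
      simp only [Complex.cpow_zero] at h7
      exact h7
    have l4 := ((l3.mul l2).mul l1).const_mul ((1 / 4 : ℝ) : ℂ)
    have e : ((1 / 4 : ℝ) : ℂ) * (1 * (-1 / 2) * ((Ft F 0 : ℂ) / σ)) =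
        ((-(1 / 8 * Ft F 0) : ℝ) : ℂ) / σ := by
      push_cast
      ring
    rw [e] at l4
    refine l4.congr fun L => ?_
    ring

theorem PH4_of
    (FE1 : ∀ (ε : ℤ) (_ : ε = 1 ∨ ε = -1) (F : ℝ → ℝ) (_ : TF F), HP (Fme ε F) (Ft F 0))
    (FE2 : ∀ (ε : ℤ) (_ : ε = 1 ∨ ε = -1) (F : ℝ → ℝ) (_ : TF F) (ξ : ℝ) (_ : 0 < ξ) (σ0 : ℝ)
      (_ : 0 < σ0) (_ : σ0 ≤ 1),
      (Ft F ((ε : ℝ) * ξ) : ℂ) = (1 / (2 * Real.pi) : ℂ) *
        ∫ t : ℝ, Fme ε F ((σ0 : ℂ) + t * Complex.I) * (ξ : ℂ) ^ (-((σ0 : ℂ) + t * Complex.I)))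
    (ε : ℤ) (hε : ε = 1 ∨ ε = -1) (F : ℝ → ℝ) (hF : TF F) : ∃ H : ℂ → ℂ,
    HP H (-(1 / 8 * Ft F 0)) ∧ ∀ X : ℝ, 0 < X → ∀ n : ℕ, Odd n → ∀ σ0 : ℝ, 1 / 2 < σ0 → σ0 ≤ 1 →
      ((1 / 4 * ((∑' j : ℕ, bb4 (((j : ℤ) + 1) ^ 2) * Gk (((j : ℤ) + 1) ^ 2) n *
        Ft F ((ε : ℝ) / 4 * ((j : ℝ) + 1) ^ 2 * X / n)) / n) : ℝ) : ℂ) = Dsg H X n σ0 := by
  have hP := FE1 ε hε F hF
  refine ⟨_, HP4 ε F hP, fun X hX n hn σ0 h0 h1 => ?_⟩
  have h := PHgen ε F hP (fun ξ hξ σ0 a b => FE2 ε hε F hF ξ hξ σ0 a b) 4 (by norm_num) (1 / 4)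
    (fun j => bb4 (((j : ℤ) + 1) ^ 2)) (fun j => by
      rw [bb4_sq, abs_pow, abs_neg, abs_one, one_pow]) Zf X hX n hn.pos (fun s hs => by
      have h2 := Pool.Agent.H423R2.RZL.P5 n hn s hs
      refine h2.congr_fun ?_ |> fun h => h
      intro j
      rw [bb4_sq]
      push_cast
      rfl) σ0 h0 h1
  exact h

theorem PH4 (ε : ℤ) (hε : ε = 1 ∨ ε = -1) (F : ℝ → ℝ) (hF : TF F) : ∃ H : ℂ → ℂ,
    HP H (-(1 / 8 * Ft F 0)) ∧ ∀ X : ℝ, 0 < X → ∀ n : ℕ, Odd n → ∀ σ0 : ℝ, 1 / 2 < σ0 → σ0 ≤ 1 →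
      ((1 / 4 * ((∑' j : ℕ, bb4 (((j : ℤ) + 1) ^ 2) * Gk (((j : ℤ) + 1) ^ 2) n *
        Ft F ((ε : ℝ) / 4 * ((j : ℝ) + 1) ^ 2 * X / n)) / n) : ℝ) : ℂ) = Dsg H X n σ0 :=
  PH4_of Pool.Agent.H306R2.RG.StubsA.FE1 Pool.Agent.H306R2.RG.StubsA.FE2 ε hε F hF

end

end Pool.Agent.H207R4.RGPH4
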